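import Pool.Agent.helper47.AKL.SpecK
import Pool.Agent.helper76.TQ.C1

/-!
# Project A+ (MP_3703a7_ag), row ta:KOK: `V_q(J_i)` is free and has a class `θ_i`
-/

set_option autoImplicit false

namespace Pool.Agent.AKL

open Polynomial Pool.Agent.HC Pool.Agent.HC.SJ Pool.Agent.SJ Pool.Agent.GJ Pool.Agent.TK Pool.Agent.TD
open Pool.Agent.FJ (VT Om chiO Jac Tup)
open Pool.Agent.AQ (PF galP eg Blk)
open Pool.Agent.TQ (VA galA zA)
open Pool.Agent.TI (TZ WA bs ES WC PL1_stmt PL2_stmt)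
open scoped TensorProduct

noncomputable section

/-- the data with the exponents zero -/
def KOK_D0 {l : ℕ} (D : Pool.Agent.TN.Cvs l) : Pool.Agent.TN.Cvs l := { D with e := fun _ => 0 }

/-- the zero torus -/
def KOK_B : Pool.Agent.TC.CT where
  W := Fin 0 → ℂ
  Lam := ⊤

theorem KOK_iso (hSTD : CM.STD_stmt) (l : ℕ) [Fact l.Prime] (hl : l ≠ 2) (D : Pool.Agent.TN.Cvs l) (ι : Pool.Agent.TC.Emb) :
    Nonempty (Pool.Agent.TN.Isog (KOK_D0 D) ι KOK_B) := by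
  have key : ∀ i : Fin (KOK_D0 D).k, ∃ (L : AddSubgroup ((KOK_D0 D).WI i)) (F : ℂ × ℂ → (KOK_D0 D).WI i),
      (KOK_D0 D).IsJ ι i L ∧ IsAJ l ((KOK_D0 D).μ i) (fun j => ι.ap ((KOK_D0 D).a i j)) L F := by
    intro i
    have hg : GJ.Good ℂ l (D.μ i) (fun j => ι.ap (D.a i j)) :=
      ⟨fun j j' h => D.inj i (RingHom.injective (show Pool.Agent.TC.Qb →+* ℂ from ι) h), D.pos i, D.lt i, D.inf i⟩
    obtain ⟨L, F, Y, h⟩ := hSTD l hl (D.n i) (D.μ i) (fun j => ι.ap (D.a i j)) (D.npos i) ∅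
      Set.countable_empty
    exact ⟨L, F, ⟨h.lat, h.stab, F, h.aj⟩, h.aj⟩
  choose L F hJ hA using key
  have hsub : Subsingleton KOK_B.W := ⟨fun f g => funext fun h => h.elim0⟩
  have hsub2 : ∀ i : Fin (KOK_D0 D).k, Subsingleton (Fin ((KOK_D0 D).e i) → (KOK_D0 D).WI i) :=
    fun i => ⟨fun f g => funext fun h => Fin.elim0 h⟩
  exact ⟨{
    L := L
    jac := hJ
    F := F
    aj := hA
    p := fun i c => Fin.elim0 c
    bij := by
      constructor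
      · intro v w _
        funext i
        exact (hsub2 i).elim _ _
      · intro x
        exact ⟨fun i c => Fin.elim0 c, hsub.elim _ _⟩ }⟩

theorem KOK (hSTD : CM.STD_stmt) (h4 : TQC.QN4_stmt) (hCM : TQC.QCM_stmt) (hKJO : KJO_stmt) (hc2 : CL2_stmt) (hc3 : CL3_stmt) (hp : CP1_stmt) : KOK_stmt := by
  intro l _ hl D E q _
  obtain ⟨ι⟩ : Nonempty Pool.Agent.TC.Emb := by
    let _ : Algebra ℚ (AlgebraicClosure ℚ) := AlgebraicClosure.instAlgebra ℚ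
    have : Algebra.IsAlgebraic ℚ (AlgebraicClosure ℚ) := AlgebraicClosure.isAlgebraic ℚ
    exact ⟨(IsAlgClosed.lift (R := ℚ) (S := AlgebraicClosure ℚ) (M := ℂ)).toRingHom⟩
  obtain ⟨T⟩ := KOK_iso hSTD l hl D ι
  obtain ⟨e, f, hc, hR⟩ := h4 l (KOK_D0 D) ι KOK_B T q hl
  obtain ⟨P⟩ := hCM l (KOK_D0 D) ι KOK_B T q e f hR
  have h := TQ.C1_OK P.cmp hKJO hc2 hc3 hp hl (KOK_D0 D).npos
  exact ⟨P.cmp.tht, ⟨fun i s hs => h.free i s hs, fun i => ⟨(h.th i).deg, fun σ hσ => (h.th i).tate σ hσ, (h.th i).zeta, (h.th i).nondeg⟩⟩⟩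

end

end Pool.Agent.AKL
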